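import Pool.Agent.Lib.MP_6441f0_al.ND.Pair

namespace Pool.Agent.Lib.MP_6441f0_al.ND

open scoped commutatorElement

/-- centre of the derived subgroup -/
def cA (G : Type) [Group G] : Subgroup G := commutator G ⊓ Subgroup.centralizer (commutator G)

variable {G : Type} [Group G]

lemma cQ (a b : G) : ⁅a, b⁆ ∈ commutator G :=
  Subgroup.commutator_mem_commutator (Subgroup.mem_top a) (Subgroup.mem_top b)

lemma nQ {x : G} (h : x ∈ commutator G) (g : G) : g * x * g⁻¹ ∈ commutator G :=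
  Subgroup.Normal.conj_mem inferInstance x h g

lemma nA {x : G} (h : x ∈ cA G) (g : G) : g * x * g⁻¹ ∈ cA G :=
  ⟨nQ h.1 g, Subgroup.Normal.conj_mem inferInstance x h.2 g⟩

lemma dA {x : G} (h : x ∈ cA G) (g : G) : ⁅g, x⁆ ∈ cA G :=
  (cA G).mul_mem (nA h g) ((cA G).inv_mem h)

lemma cjA {w x : G} (hw : w ∈ commutator G) (h : x ∈ cA G) : w * x * w⁻¹ = x := by
  rw [h.2 w hw, mul_inv_cancel_right]

lemma cA1 {w x : G} (hw : w ∈ commutator G) (h : x ∈ cA G) : ⁅w, x⁆ = 1 :=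
  commutatorElement_eq_one_iff_mul_comm.2 (h.2 w hw)

lemma cA2 {w x : G} (hw : w ∈ commutator G) (h : x ∈ cA G) : ⁅x, w⁆ = 1 :=
  commutatorElement_eq_one_iff_mul_comm.2 (h.2 w hw).symm

lemma cj (g x : G) : g * x * g⁻¹ = ⁅g, x⁆ * x := by simp [commutatorElement_def]

/-- `μ` is a character of `cA G`, faithful on the central group `G''` -/
structure St (μ : G → ℂˣ) : Prop where
  mul : MulOn (cA G) μ
  zc : ∀ x ∈ commutator G, ∀ y ∈ commutator G, ∀ g, g * ⁅x, y⁆ * g⁻¹ = ⁅x, y⁆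
  fa : ∀ x ∈ commutator G, ∀ y ∈ commutator G, μ ⁅x, y⁆ = 1 → ⁅x, y⁆ = 1

/-- stabiliser of `μ` -/
def stab (μ : G → ℂˣ) : Subgroup G where
  carrier := {t | ∀ x ∈ cA G, μ (t * x * t⁻¹) = μ x}
  mul_mem' := fun {a b} ha hb x hx => by
    rw [← hb x hx, ← ha _ (nA hx b)]
    simp [mul_assoc]
  one_mem' := by simp
  inv_mem' := fun {a} ha x hx => by
    rw [← ha _ (nA hx a⁻¹)]
    simp [mul_assoc]

lemma Q_le (μ : G → ℂˣ) : commutator G ≤ stab μ := fun _ hw _ hx => by rw [cjA hw hx]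

lemma del {μ : G → ℂˣ} (hm : MulOn (cA G) μ) {t x : G} (ht : t ∈ stab μ) (hx : x ∈ cA G) :
    μ ⁅t, x⁆ = 1 := by
  have := ht x hx
  rwa [cj, hm _ (dA hx t) _ hx, mul_eq_right] at this

lemma hv {χ : G → ℂˣ} (hm : MulOn (cA G) χ) (v : G) : MulOn (cA G) fun y => χ ⁅v, y⁆ :=
  fun a ha b hb => by
    have e : ⁅v, a * b⁆ = ⁅v, a⁆ * (a * ⁅v, b⁆ * a⁻¹) := by simp only [commutatorElement_def]; group
    simp only [e, cjA ha.1 (dA hb v), hm _ (dA ha v) _ (dA hb v)]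

lemma dd {χ : G → ℂˣ} (hm : MulOn (cA G) χ) {w : G} (hw : ∀ v : G, ⁅v, w⁆ ∈ cA G) (s v : G) :
    χ ⁅s, ⁅v, w⁆⁆ = χ ⁅v, ⁅s, w⁆⁆ * χ ⁅⁅s, v⁆, w⁆ := by
  have e : ⁅s, ⁅v, w⁆⁆ * ⁅v, w⁆ * ⁅s, w⁆ =
      ⁅s, v⁆ * (⁅v, ⁅s, w⁆⁆ * ⁅s, w⁆ * ⁅v, w⁆) * ⁅s, v⁆⁻¹ * ⁅⁅s, v⁆, w⁆ := by
    simp only [commutatorElement_def]; group
  have m := @(cA G).mul_mem
  have a := m (m (dA (hw s) v) (hw s)) (hw v)
  rw [cjA (cQ s v) a] at e
  have := congrArg χ e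
  rw [hm _ (m (dA (hw v) s) (hw v)) _ (hw s), hm _ (dA (hw v) s) _ (hw v), hm _ a _ (hw _),
    hm _ (m (dA (hw s) v) (hw s)) _ (hw v), hm _ (dA (hw s) v) _ (hw s)] at this
  apply mul_right_cancel (b := χ ⁅v, w⁆ * χ ⁅s, w⁆)
  rw [← mul_assoc, this]
  ac_rfl

namespace St

variable {μ : G → ℂˣ} (h : St μ)
include h

lemma zA {x y : G} (hx : x ∈ commutator G) (hy : y ∈ commutator G) : ⁅x, y⁆ ∈ cA G :=
  ⟨cQ x y, fun w _ => mul_inv_eq_iff_eq_mul.1 (h.zc x hx y hy w)⟩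

lemma z1 {x y : G} (hx : x ∈ commutator G) (hy : y ∈ commutator G) (v : G) : ⁅v, ⁅x, y⁆⁆ = 1 := by
  rw [commutatorElement_def v, h.zc x hx y hy, mul_inv_cancel]

lemma b1 {n : G} (hn : n ∈ commutator G) {a b : G} (ha : a ∈ commutator G)
    (hb : b ∈ commutator G) : μ ⁅a * b, n⁆ = μ ⁅a, n⁆ * μ ⁅b, n⁆ :=
  (bim h.mul (fun _ hs _ ht => h.zA hs ht) fun s hs x hx => ⟨nA hx s, Q_le μ hs x hx⟩).1
    n hn a ha b hb

lemma b2 {n : G} (hn : n ∈ commutator G) : MulOn (commutator G) fun t => μ ⁅n, t⁆ :=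
  (bim h.mul (fun _ hs _ ht => h.zA hs ht) fun s hs x hx => ⟨nA hx s, Q_le μ hs x hx⟩).2 n hn

lemma nd {x : G} (hx : x ∈ commutator G) (e : ∀ w ∈ commutator G, μ ⁅x, w⁆ = 1) : x ∈ cA G :=
  ⟨hx, fun w hw => (commutatorElement_eq_one_iff_mul_comm.1 (h.fa x hx w hw (e w hw))).symm⟩

lemma mv {x y : G} (hx : x ∈ commutator G) (hy : y ∈ commutator G) (g : G) :
    ⁅x, g * y * g⁻¹⁆ = ⁅g⁻¹ * x * g⁻¹⁻¹, y⁆ := by
  rw [← h.zc _ (nQ hx g⁻¹) y hy g]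
  simp only [commutatorElement_def]; group

lemma fx {x y g : G} (hx : x ∈ commutator G) (hy : y ∈ commutator G) (hg : ⁅g⁻¹, x⁆ ∈ cA G) :
    μ ⁅x, g * y * g⁻¹⁆ = μ ⁅x, y⁆ := by
  rw [h.mv hx hy, cj, h.b1 hy (cQ _ _) hx, cA2 hy hg, h.mul.one, one_mul]

lemma tiso {u : G} (hF : ∀ v : G, ⁅v, u⁆ ∈ cA G) {s t : G} (hs : s ∈ stab μ) (ht : t ∈ stab μ) :
    μ ⁅⁅s, t⁆, u⁆ = 1 := by
  have := dd h.mul hF s t
  rwa [del h.mul hs (hF t), del h.mul ht (hF s), one_mul, eq_comm] at this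

lemma sy {x y : G} (hx : x ∈ commutator G) (hy : y ∈ commutator G) (e : μ ⁅x, y⁆ = 1) :
    μ ⁅y, x⁆ = 1 := by
  rw [← commutatorElement_inv, h.fa x hx y hy e, inv_one, h.mul.one]

lemma lin {x w : G} (hF : ∀ v s : G, ⁅s, ⁅v, x⁆⁆ ∈ cA G) (hw : w ∈ commutator G) :
    MulOn ⊤ fun v : G => μ ⁅⁅v, x⁆, w⁆ := fun a _ b _ => by
  have e : ⁅a * b, x⁆ = ⁅a, ⁅b, x⁆⁆ * (⁅b, x⁆ * ⁅a, x⁆) := by
    simp only [commutatorElement_def]; group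
  simp only [e, h.b1 hw (cQ _ _) (mul_mem (cQ _ _) (cQ _ _)), h.b1 hw (cQ _ _) (cQ _ _),
    cA2 hw (hF b a), h.mul.one, mul_one, mul_comm]

variable [Finite G] {m M : ℕ} (hG : Hyp G m M)
include hG

lemma iso {u : G} (hu : u ∈ commutator G) (hF : ∀ v : G, ⁅v, u⁆ ∈ cA G) (hA : u ∉ cA G)
    {H : Subgroup G} (hI : ∀ a ∈ H, ∀ b ∈ H, μ ⁅u, ⁅a, b⁆⁆ = 1) : m ≤ H.index := by
  by_contra! hi
  obtain ⟨lam, l1, l2, l3⟩ := ext_char (L := H) (h.b2 hu)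
    (fun l _ x hx => ⟨nQ hx l, h.fx hu hx (hF _)⟩) fun a ha b hb => ⟨cQ a b, hI a ha b hb⟩
  refine hA (h.nd hu fun w hw => ?_)
  obtain ⟨e1, e2⟩ := low hG hi l1 l2 w hw
  exact Units.ext ((l3 w hw e1).symm.trans e2)

lemma deg (hM : 1 ≤ M) {S L : Subgroup G} (hS : S ≤ stab μ) (hL : L ≤ S) (hA : cA G ≤ S)
    (hc : ∀ s ∈ S, ∀ t ∈ S, ⁅s, t⁆ ∈ cA G) (hI : ∀ x ∈ L, ∀ y ∈ L, μ ⁅x, y⁆ = 1)
    (hX : ∀ y ∈ S, (∀ l ∈ L, μ ⁅l, y⁆ = 1) → y ∈ L) :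
    (stab μ).index * Nat.card S ≤ M * Nat.card L := by
  have AL : cA G ≤ L := fun a ha => hX a (hA ha) fun l hl => del h.mul (hS (hL hl)) ha
  obtain ⟨lam, l1, l2, l3⟩ := ext_char (L := L) h.mul
    (fun l hl x hx => ⟨nA hx l, hS (hL hl) x hx⟩) fun a ha b hb =>
      ⟨hc a (hL ha) b (hL hb), hI a ha b hb⟩
  have := mackey hG hM l1 l2 (ι := (G ⧸ stab μ) × (S ⧸ L.subgroupOf S))
    (fun i => i.1.out * (i.2.out : S)) (by
    rintro ⟨r, w⟩ ⟨r', w'⟩ hij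
    by_cases e : r = r'
    · subst e
      have e1 : (r.out * (w'.out : S))⁻¹ * (r.out * (w.out : S)) = (w'.out⁻¹ * w.out : S) := by
        simp [mul_assoc]
      simp only [e1]
      have e2 : ((w'.out⁻¹ * w.out : S) : G) ∉ L := fun e => hij (by
        rw [← Quotient.out_equiv_out.1 (Quotient.exact
          ((QuotientGroup.eq (s := L.subgroupOf S)).2 e))])
      generalize w'.out⁻¹ * w.out = γ at e2
      obtain ⟨l, hl, e3⟩ : ∃ l ∈ L, μ ⁅l, (γ : G)⁆ ≠ 1 := by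
        by_contra! e
        exact e2 (hX _ γ.2 e)
      have e4 := hc l (hL hl) _ γ.2
      refine ⟨l⁻¹ * ⁅l, (γ : G)⁆, mul_mem (inv_mem hl) (AL e4), l⁻¹, inv_mem hl, by
        simp [commutatorElement_def, mul_assoc], fun e => e3 (Units.ext ?_)⟩
      have e5 := l1 _ (inv_mem hl) _ hl
      rw [l1 _ (inv_mem hl) _ (AL e4), l3 _ e4 (AL e4)] at e
      rw [inv_mul_cancel, l2] at e5
      exact (mul_eq_left₀ (left_ne_zero_of_mul_eq_one e5.symm)).1 e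
    · have e2 : (r'.out * (w'.out : S))⁻¹ * (r.out * (w.out : S)) ∉ stab μ := fun e2 => e (by
        have := mul_mem (mul_mem (hS w'.out.2) e2) (inv_mem (hS w.out.2))
        rw [← r.out_eq', ← r'.out_eq', eq_comm, QuotientGroup.eq]
        simpa [mul_assoc] using this)
      simp only
      generalize (r'.out * (w'.out : S))⁻¹ * (r.out * (w.out : S)) = γ at e2
      obtain ⟨x, hx, e3⟩ : ∃ x ∈ cA G, μ (γ * x * γ⁻¹) ≠ μ x := by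
        by_contra! e
        exact e2 e
      refine ⟨_, AL (nA hx γ), x, AL hx, by simp, ?_⟩
      rw [l3 _ (nA hx γ) (AL (nA hx γ)), l3 _ hx (AL hx)]
      exact fun e => e3 (Units.ext e))
  rw [← (L.subgroupOf S).index_mul_card, Nat.card_congr (Subgroup.subgroupOfEquivOfLe hL).toEquiv,
    ← mul_assoc]
  exact Nat.mul_le_mul_right _ (by rwa [Nat.card_prod] at this)

end St

end Pool.Agent.Lib.MP_6441f0_al.ND
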