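import Pool.Agent.Lib.MP_6441f0_al.ND.Base

namespace Pool.Agent.Lib.MP_6441f0_al.ND

open scoped commutatorElement

variable {G : Type} [Group G]

namespace St

variable {μ : G → ℂˣ} (h : St μ)
include h

lemma fx1 {x y g : G} (hx : x ∈ commutator G) (hy : y ∈ commutator G) (hg : ⁅g⁻¹, x⁆ ∈ cA G) :
    μ ⁅x, ⁅g, y⁆⁆ = 1 := by
  have e := h.fx hx hy hg
  have e2 : μ ⁅x, ⁅g, y⁆ * y⁆ = μ ⁅x, ⁅g, y⁆⁆ * μ ⁅x, y⁆ := h.b2 hx _ (cQ g y) _ hy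
  rwa [cj, e2, mul_eq_right] at e

lemma tA {t a : G} (ht : t ∈ stab μ) (ha : a ∈ cA G) (y : G) : μ ⁅y, ⁅t, a⁆⁆ = 1 := by
  rw [dd h.mul (fun v => dA ha v) y t, del h.mul ht (dA ha y), cA1 (cQ y t) ha, h.mul.one, one_mul]

variable [Finite G] {m M : ℕ} (hG : Hyp G m M)
include hG

lemma U1 {u : G} (hu : u ∈ commutator G) (hF : ∀ v : G, ⁅v, u⁆ ∈ cA G) (hA : u ∉ cA G) :
    m ≤ (stab μ).index :=
  h.iso hG hu hF hA fun a ha b hb => h.sy (cQ a b) hu (h.tiso hF ha hb)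

lemma caseI (hM : 1 ≤ M) {x v : G} (hx : x ∈ commutator G)
    (hF : ∀ v s : G, ⁅s, ⁅v, x⁆⁆ ∈ cA G) (hA : ⁅v, x⁆ ∉ cA G) : m * m ≤ M := by
  obtain ⟨g, rfl⟩ := inv_surjective v
  let H := kerOn ⊤ (fun (w : commutator G) (v : G) => μ ⁅⁅v, x⁆, (w : G)⁆) fun w => h.lin hF w.2
  have HA : ∀ g ∈ H, ⁅g, x⁆ ∈ cA G := fun g hg => h.nd (cQ _ _) fun w hw => hg.2 ⟨w, hw⟩
  have QH : commutator G ≤ H := fun g hg => ⟨trivial, fun w => by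
    simp only [cA2 w.2 (h.zA hg hx), h.mul.one]⟩
  obtain ⟨o1, o2⟩ := bim (S := H) (h.b2 hx) (fun a _ b _ => cQ a b)
    fun s hs y hy => ⟨nQ hy s, h.fx hx hy (HA _ (H.inv_mem hs))⟩
  have o3 : ∀ w ∈ commutator G, ∀ g ∈ H, μ ⁅x, ⁅g, w⁆⁆ = 1 := fun w hw g hg =>
    h.fx1 hx hw (HA _ (H.inv_mem hg))
  have o4 : ∀ w ∈ commutator G, ∀ g ∈ H, μ ⁅x, ⁅w, g⁆⁆ = 1 := fun w hw g hg => by
    have e : μ ⁅x, ⁅g, w⁆⁻¹⁆ = (μ ⁅x, ⁅g, w⁆⁆)⁻¹ := (h.b2 hx).inv (cQ g w)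
    rwa [commutatorElement_inv, o3 w hw g hg, inv_one] at e
  have i1 : m ≤ H.index := h.iso hG (cQ _ _) (hF _) hA fun a ha b hb => by
    have e := congrArg μ (h.mv hx (cQ a b) g)
    have e1 : g * ⁅a, b⁆ * g⁻¹ = ⁅⁅g, a⁆ * a, ⁅g, b⁆ * b⁆ := by
      simp only [commutatorElement_def]; group
    have hn := H.mul_mem (QH (cQ g b)) hb
    have e2 : μ ⁅x, ⁅⁅g, a⁆ * a, ⁅g, b⁆ * b⁆⁆ = μ ⁅x, ⁅⁅g, a⁆, ⁅g, b⁆ * b⁆⁆ *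
      μ ⁅x, ⁅a, ⁅g, b⁆ * b⁆⁆ := o1 _ hn _ (QH (cQ g a)) _ ha
    have e3 : μ ⁅x, ⁅a, ⁅g, b⁆ * b⁆⁆ = μ ⁅x, ⁅a, ⁅g, b⁆⁆⁆ * μ ⁅x, ⁅a, b⁆⁆ :=
      o2 _ ha _ (QH (cQ g b)) _ hb
    rw [cj g⁻¹, h.b1 (cQ a b) (cQ _ _) hx, e1, e2, e3, o4 _ (cQ g a) _ hn, o3 _ (cQ g b) _ ha,
      one_mul, one_mul] at e
    exact mul_eq_right.1 e.symm
  have i2 := h.U1 hG (cQ _ _) (hF _) hA
  have i3 := pair (S := ⊤) (T := commutator G) (β := fun v w => μ ⁅⁅v, x⁆, w⁆)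
    (fun w hw => h.lin hF hw) fun v _ => h.b2 (cQ v x)
  obtain ⟨L, L1, L2, L3, L4, -⟩ := lag (S := commutator G) (β := fun a b => μ ⁅a, b⁆)
    (fun n hn a ha b hb => h.b1 hn ha hb) (fun n hn => h.b2 hn)
    (fun s _ => by simp [h.mul.one]) (X := Set.range fun v : G => ⁅v, x⁆)
    (by rintro _ ⟨v, rfl⟩; exact cQ v x)
    (by rintro _ ⟨v, rfl⟩ _ ⟨w, rfl⟩; exact h.fx1 (cQ v x) hx (hF _ _))
  have i4 := h.deg hG hM (Q_le μ) L1 inf_le_left (fun s hs t ht => h.zA hs ht) L3 L4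
  have i5 : Nat.card L ≤ {n | n ∈ commutator G ∧ ∀ v ∈ (⊤ : Subgroup G), μ ⁅⁅v, x⁆, n⁆ = 1}.ncard :=
    Set.ncard_le_ncard (s := (L : Set G)) fun n hn => ⟨L1 hn, fun v _ => L3 _ (L2 ⟨v, rfl⟩) n hn⟩
  have i6 : {v | v ∈ (⊤ : Subgroup G) ∧ ∀ n ∈ commutator G, μ ⁅⁅v, x⁆, n⁆ = 1}.ncard =
      Nat.card H := congrArg Set.ncard (Set.ext fun v => 
        ⟨fun e => ⟨e.1, fun n => e.2 n n.2⟩, fun e => ⟨e.1, fun n hn => e.2 ⟨n, hn⟩⟩⟩)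
  rw [i6, Subgroup.card_top, ← H.index_mul_card] at i3
  have p1 : 0 < Nat.card H := Nat.card_pos
  have p2 : 0 < Nat.card L := Nat.card_pos
  generalize Set.ncard _ = y at i3 i5
  have i7 : Nat.card (commutator G) = H.index * y :=
    Nat.eq_of_mul_eq_mul_left p1 (by rw [i3]; ring)
  refine Nat.le_of_mul_le_mul_right ?_ p2
  calc m * m * Nat.card L ≤ (stab μ).index * H.index * y := by gcongr
    _ ≤ _ := by rwa [mul_assoc, ← i7]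

end St

end Pool.Agent.Lib.MP_6441f0_al.ND
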