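import Pool.Agent.Lib.MP_6441f0_al.ND.CaseI

namespace Pool.Agent.Lib.MP_6441f0_al.ND

open scoped commutatorElement

variable {G : Type} [Group G]

/-- `y` is killed by all second differences of `μ` -/
def nn (μ : G → ℂˣ) (y : G) : Prop := ∀ v v' : G, μ ⁅v, ⁅v', y⁆⁆ = 1

/-- characters of `cA G` trivial on `nn μ` -/
def chars (μ : G → ℂˣ) : Subgroup (G → ℂˣ) where
  carrier := {f | MulOn (cA G) f ∧ ∀ y, (y ∈ cA G → nn μ y) → f y = 1}
  mul_mem' := fun ha hb => ⟨fun x hx y hy => by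
    simp only [Pi.mul_apply, ha.1 x hx y hy, hb.1 x hx y hy]; ac_rfl,
    fun y hy => by simp [ha.2 y hy, hb.2 y hy]⟩
  one_mem' := ⟨fun _ _ _ _ => by simp, fun _ _ => rfl⟩
  inv_mem' := fun ha => ⟨fun x hx y hy => by
    simp only [Pi.inv_apply, ha.1 x hx y hy, mul_inv], fun y hy => by simp [ha.2 y hy]⟩

lemma chars_fin [Finite G] (μ : G → ℂˣ) : Finite (chars μ) := by
  have : NeZero (Nat.card G) := ⟨Nat.card_pos.ne'⟩
  refine (Set.Finite.pi' fun _ : G => show (rootsOfUnity (Nat.card G) ℂ : Set ℂˣ).Finite from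
    inferInstanceAs (Finite (rootsOfUnity _ ℂ))).subset
    fun f hf x => ?_
  change f x ^ _ = 1
  by_cases hx : x ∈ cA G
  · have : ∀ n : ℕ, f (x ^ n) = f x ^ n := fun n => by
      induction n with
      | zero => simpa using hf.1.one
      | succ n ih => rw [pow_succ, hf.1 _ (pow_mem hx n) _ hx, ih, pow_succ]
    rw [← this, pow_card_eq_one', hf.1.one]
  · rw [hf.2 x fun e => absurd e hx, one_pow]

lemma count {ι κ : Type} [Fintype ι] [Fintype κ] (r : ι → κ → Prop) :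
    ∑ i, Nat.card {t // r i t} = ∑ t, Nat.card {i // r i t} := by
  classical
  simp only [Nat.card_eq_fintype_card, Fintype.card_subtype, Finset.card_filter]
  exact Finset.sum_comm

namespace St

variable {μ : G → ℂˣ} (h : St μ) (hII : ∀ w ∈ commutator G, ∀ v : G, ⁅v, w⁆ ∈ cA G)
include h hII

lemma N2 {t w : G} (ht : t ∈ stab μ) (hw : w ∈ commutator G) : nn μ ⁅t, w⁆ := fun v v' =>
  (dd (hv h.mul v) (hII w hw) v' t).trans (by
    simp only [h.tA ht (hII w hw v'), h.z1 (cQ _ _) hw, h.mul.one, one_mul])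

lemma TA {s t : G} (hs : s ∈ stab μ) (ht : t ∈ stab μ) : ⁅s, t⁆ ∈ cA G :=
  h.nd (cQ s t) fun w hw => h.tiso (hII w hw) hs ht

lemma stab_le {g : G → ℂˣ} (hg : g ∈ chars μ) : stab μ ≤ stab g := fun t ht x hx => by
  rw [cj, hg.1 _ (dA hx t) _ hx, hg.2 _ fun _ => h.N2 hII ht hx.1, one_mul]

lemma mul_st {g : G → ℂˣ} (hg : g ∈ chars μ) : St (μ * g) :=
  ⟨fun x hx y hy => by simp only [Pi.mul_apply, h.mul x hx y hy, hg.1 x hx y hy]; ac_rfl, h.zc,
    fun x hx y hy e => h.fa x hx y hy (by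
      rwa [Pi.mul_apply, hg.2 _ fun _ => h.N2 hII (Q_le μ hx) hy, mul_one] at e)⟩

lemma gm {g : G → ℂˣ} (hm : MulOn (cA G) g) (hg : stab μ ≤ stab g) :
    (∀ n ∈ stab μ, MulOn (stab μ) fun s => g ⁅s, n⁆) ∧
      ∀ t ∈ stab μ, MulOn (stab μ) fun s => g ⁅t, s⁆ :=
  bim hm (fun _ hs _ ht => h.TA hII hs ht) fun s hs x hx => ⟨nA hx s, hg hs x hx⟩

lemma KR {s t x : G} (hs : s ∈ stab μ) (ht : t ∈ stab μ) (h1 : ⁅s, x⁆ ∈ cA G)
    (h2 : ∀ g ∈ chars μ, g ⁅t, s⁆ = 1) (y : G) : μ ⁅⁅t, x⁆, ⁅s, y⁆⁆ = 1 := by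
  classical
  have a2 := h.TA hII ht hs
  have n2 : μ ⁅y, ⁅x, ⁅t, s⁆⁆⁆ = 1 := by
    simpa [a2] using h2 (fun z => if z ∈ cA G then μ ⁅y, ⁅x, z⁆⁆ else 1)
      ⟨fun a ha b hb => by
        simpa [ha, hb, (cA G).mul_mem ha hb] using hv (hv h.mul y) x a ha b hb,
      fun z hz => by
        simp only
        split_ifs with e
        exacts [hz e y x, rfl]⟩
  have e : ⁅s, ⁅t, x⁆⁆ = ⁅t, s⁆⁻¹ * (⁅t, ⁅s, x⁆⁆ * ⁅s, x⁆) *
      (⁅t, x⁆ * (⁅x, ⁅t, s⁆⁆ * ⁅t, s⁆ * ⁅s, x⁆⁻¹) * ⁅t, x⁆⁻¹) := by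
    simp only [commutatorElement_def]; group
  have m := @(cA G).mul_mem
  have i := @(cA G).inv_mem
  have b := m (m (dA a2 x) a2) (i h1)
  have c := hv h.mul y
  have e2 := dd h.mul (hII _ (cQ t x)) s y
  rw [del h.mul hs (hII _ (cQ t x) y), e, cjA (cQ t x) b] at e2
  generalize ⁅t, s⁆ = a at *
  generalize ⁅s, x⁆ = d at *
  have e3 := c _ (m (i a2) (m (dA h1 t) h1)) _ b
  rw [c _ (i a2) _ (m (dA h1 t) h1), c _ (dA h1 t) _ h1, c _ (m (dA a2 x) a2) _ (i h1),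
    c _ (dA a2 x) _ a2] at e3
  have f1 : μ ⁅y, a⁻¹⁆ = (μ ⁅y, a⁆)⁻¹ := c.inv a2
  have f2 : μ ⁅y, d⁻¹⁆ = (μ ⁅y, d⁆)⁻¹ := c.inv h1
  simp only [h.tA ht h1, n2, one_mul, f1, f2] at e3
  refine h.sy (cQ _ _) (cQ _ _) ?_
  rw [e3] at e2
  simpa [mul_assoc, mul_left_comm (μ ⁅y, d⁆)] using e2.symm

variable [Finite G] {m M : ℕ} (hG : Hyp G m M)
include hG

lemma radb {u : G} (hu : u ∈ commutator G) (hA : u ∉ cA G) :
    {s : G | ∀ y : G, μ ⁅u, ⁅s, y⁆⁆ = 1}.ncard * (m * m) ≤ Nat.card G := by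
  obtain ⟨o1, o2⟩ := bim (S := ⊤) (h.b2 hu) (fun a _ b _ => cQ a b)
    fun s _ y hy => ⟨nQ hy s, h.fx hu hy (hII u hu _)⟩
  obtain ⟨L, -, -, L3, -, L5⟩ := lag (S := ⊤) (β := fun a b => μ ⁅u, ⁅a, b⁆⁆) o1 o2
    (fun s _ => by simp [h.mul.one]) (X := ∅) (by simp) (by simp)
  have i := h.iso hG hu (hII u hu) hA L3
  rw [Subgroup.card_top] at L5
  simp only [Subgroup.mem_top, true_and, forall_true_left] at L5
  refine Nat.le_of_mul_le_mul_right ?_ (Nat.card_pos (α := G))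
  rw [mul_right_comm, L5, ← L.index_mul_card]
  calc _ ≤ Nat.card L * Nat.card L * (L.index * L.index) := by gcongr
    _ = _ := by ring

lemma kb {t x : G} (ht : t ∈ stab μ) (hA : ⁅t, x⁆ ∉ cA G) :
    {s | s ∈ stab μ ∧ ∀ g : chars μ, g.1 ⁅t, s⁆ = 1}.ncard * Nat.card (cA G) * (m * m) ≤
      Nat.card (commutator G) * Nat.card G := by
  let K := kerOn (stab μ) (fun (g : chars μ) s => g.1 ⁅t, s⁆)
    fun g => (h.gm hII g.2.1 (h.stab_le hII g.2)).2 t ht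
  have i := pair (S := K) (T := commutator G) (β := fun v w => μ ⁅⁅v, x⁆, w⁆)
    (fun w hw => (h.lin (fun v s => hII _ (cQ v x) s) hw).mono le_top) fun v _ => h.b2 (cQ v x)
  have i1 : Nat.card (cA G) ≤ {n | n ∈ commutator G ∧ ∀ v ∈ K, μ ⁅⁅v, x⁆, n⁆ = 1}.ncard :=
    Set.ncard_le_ncard (s := (cA G : Set G)) fun n hn => ⟨hn.1, fun v _ => by
      rw [cA1 (cQ v x) hn, h.mul.one]⟩
  have i2 : {v | v ∈ K ∧ ∀ n ∈ commutator G, μ ⁅⁅v, x⁆, n⁆ = 1}.ncard ≤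
      {s : G | ∀ y : G, μ ⁅⁅t, x⁆, ⁅s, y⁆⁆ = 1}.ncard :=
    Set.ncard_le_ncard fun s hs => h.KR hII hs.1.1 ht (h.nd (cQ s x) hs.2)
      fun g hg => hs.1.2 ⟨g, hg⟩
  have i3 := h.radb hII hG (cQ t x) hA
  change Nat.card K * _ * _ ≤ _
  refine (Nat.mul_le_mul_right _ (((Nat.mul_le_mul_left _ i1).trans i.ge).trans
    (Nat.mul_le_mul_right _ i2))).trans ?_
  rw [mul_right_comm, mul_comm]
  gcongr

omit hG in
lemma nb (t : G) : Nat.card {g : chars μ // t ∈ stab μ ∧ ∀ s ∈ stab μ, (μ * g.1) ⁅t, s⁆ = 1} *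
    Nat.card (stab μ) ≤ Nat.card (chars μ) *
      {s | (t ∈ stab μ ∧ ∀ w ∈ commutator G, μ ⁅t, w⁆ = 1) ∧
        s ∈ stab μ ∧ ∀ g : chars μ, g.1 ⁅t, s⁆ = 1}.ncard := by
  have := chars_fin μ
  rcases isEmpty_or_nonempty {g : chars μ // t ∈ stab μ ∧ ∀ s ∈ stab μ, (μ * g.1) ⁅t, s⁆ = 1}
    with e | ⟨⟨g, ht, e⟩⟩
  · simp
  have hD : ∀ w ∈ commutator G, μ ⁅t, w⁆ = 1 := fun w hw => by
    have := e w (Q_le μ hw)
    rwa [Pi.mul_apply, g.2.2 _ fun _ => h.N2 hII ht hw, mul_one] at this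
  have i := pair0 (fun (g : chars μ) (s : stab μ) => g.1 ⁅t, (s : G)⁆) (fun _ _ _ => rfl)
    fun g a b => (h.gm hII g.2.1 (h.stab_le hII g.2)).2 t ht a a.2 b b.2
  rw [card_sub (stab μ) fun s => ∀ g : chars μ, g.1 ⁅t, s⁆ = 1] at i
  simp only [ht, true_and, eq_true hD]
  rw [← i]
  refine Nat.mul_le_mul_right _ (Nat.card_le_card_of_injective (fun f => ⟨f.1 * g⁻¹, fun s => ?_⟩)
    fun a b e => Subtype.ext (mul_right_cancel (congrArg Subtype.val e)))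
  have e1 := (f.2 s s.2).trans (e s s.2).symm
  rw [Pi.mul_apply, Pi.mul_apply, mul_right_inj] at e1
  simp [e1]

lemma caseII (hM : 1 ≤ M) (hx : ∀ ν, St ν → stab μ ≤ stab ν → stab ν ≤ stab μ)
    {u : G} (hu : u ∈ commutator G) (hA : u ∉ cA G) : m ^ 3 < 2 * M ^ 2 := by
  classical
  have := chars_fin μ
  have := Fintype.ofFinite (chars μ)
  have := Fintype.ofFinite G
  rcases Nat.eq_zero_or_pos m with rfl | hm
  · positivity
  have AT : cA G ≤ stab μ := inf_le_left.trans (Q_le μ)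
  have s1 : ∀ g : chars μ, Nat.card G ^ 2 ≤ M ^ 2 * Nat.card (stab μ) *
      Nat.card {t // t ∈ stab μ ∧ ∀ s ∈ stab μ, (μ * g.1) ⁅t, s⁆ = 1} := fun g => by
    have hg := h.mul_st hII g.2
    have e1 : stab μ ≤ stab (μ * g.1) := fun t ht x hx => by
      rw [Pi.mul_apply, Pi.mul_apply, ht x hx, h.stab_le hII g.2 ht x hx]
    obtain ⟨o1, o2⟩ := h.gm hII hg.mul e1
    obtain ⟨L, L1, -, L3, L4, L5⟩ := lag (S := stab μ) (β := fun a b => (μ * g.1) ⁅a, b⁆) o1 o2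
      (fun s _ => by simpa using hg.mul.one) (X := ∅) (by simp) (by simp)
    have i := hg.deg hG hM e1 L1 AT (fun s hs t ht => h.TA hII hs ht) L3 L4
    rw [le_antisymm (hx _ hg e1) e1, Subgroup.index_mul_card] at i
    calc _ ≤ (M * Nat.card L) ^ 2 := by gcongr
      _ = _ := by rw [mul_pow, sq (Nat.card L), ← L5, mul_assoc, mul_comm (Nat.card (stab μ))]; rfl
  let D := {t | t ∈ stab μ ∧ ∀ w ∈ commutator G, μ ⁅t, w⁆ = 1}
  let k : G → ℕ := fun t => {s | t ∈ D ∧ s ∈ stab μ ∧ ∀ g : chars μ, g.1 ⁅t, s⁆ = 1}.ncard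
  have s2 : Nat.card G ^ 2 ≤ M ^ 2 * ∑ t, k t := by
    have e := Finset.sum_le_sum fun g (_ : g ∈ Finset.univ) => s1 g
    rw [← Finset.mul_sum, count, Finset.sum_const, smul_eq_mul, mul_assoc, Finset.mul_sum,
      Finset.card_univ, ← Nat.card_eq_fintype_card] at e
    refine Nat.le_of_mul_le_mul_left (e.trans ?_) Nat.card_pos
    rw [mul_left_comm, Finset.mul_sum _ _ (Nat.card _)]
    exact Nat.mul_le_mul_left _ (Finset.sum_le_sum fun t _ => (mul_comm _ _).le.trans (h.nb hII t))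
  have s3 : D.ncard * Nat.card (commutator G) ≤ Nat.card (stab μ) * Nat.card (cA G) := by
    obtain ⟨o1, o2⟩ := h.gm hII h.mul le_rfl
    refine (pair (β := fun a b => μ ⁅a, b⁆) (fun n hn => o1 n (Q_le μ hn))
      fun t ht => (o2 t ht).mono (Q_le μ)).le.trans (Nat.mul_le_mul_left _ ?_)
    exact Set.ncard_le_ncard (t := (cA G : Set G)) fun n hn =>
      h.nd hn.1 fun w hw => h.sy hw hn.1 (hn.2 w (Q_le μ hw))
  let Z := {s : G | ∀ x : G, ⁅s, x⁆ ∈ cA G}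
  have s4 : Z.ncard * (m * m) ≤ Nat.card G :=
    (Nat.mul_le_mul_right _ (Set.ncard_le_ncard fun s hs y => by
      rw [cA1 hu (hs y), h.mul.one])).trans (h.radb hII hG hu hA)
  have s5 : Nat.card (stab μ) * m ≤ Nat.card G := by
    rw [← (stab μ).card_mul_index]
    exact Nat.mul_le_mul_left _ (h.U1 hG hu (hII u hu) hA)
  have s6 : ∀ t, k t * Nat.card (cA G) * (m * m) ≤
      (if t ∈ Z then Nat.card (stab μ) * Nat.card (cA G) * (m * m) else 0) +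
      if t ∈ D \ {1} then Nat.card (commutator G) * Nat.card G else 0 := fun t => by
    by_cases hZ : t ∈ Z
    · rw [if_pos hZ]
      refine le_add_right (Nat.mul_le_mul_right _ (Nat.mul_le_mul_right _ ?_))
      exact Set.ncard_le_ncard (t := (stab μ : Set G)) fun s hs => hs.2.1
    by_cases hD : t ∈ D
    · obtain ⟨x, hx⟩ := not_forall.1 hZ
      rw [if_neg hZ, if_pos ⟨hD, fun e => hx (by simp [Set.mem_singleton_iff.1 e])⟩, zero_add]
      simpa only [k, hD, true_and] using h.kb hII hG hD.1 hx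
    · simp [k, hD]
  have s7 := Finset.sum_le_sum fun t (_ : t ∈ Finset.univ) => s6 t
  rw [← Finset.sum_mul, ← Finset.sum_mul, Finset.sum_add_distrib, ← Finset.sum_filter,
    ← Finset.sum_filter, Finset.sum_const, Finset.sum_const, smul_eq_mul, smul_eq_mul,
    ← Set.ncard_coe_finset, ← Set.ncard_coe_finset, Finset.coe_filter_univ,
    Finset.coe_filter_univ, Set.ofPred_mem_eq, Set.ofPred_mem_eq] at s7
  have s8 : (D \ {1}).ncard < D.ncard :=
    Set.ncard_sdiff_singleton_lt_of_mem ⟨one_mem _, fun w _ => by simp [h.mul.one]⟩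
  have p1 : 0 < Nat.card (cA G) := Nat.card_pos
  have p2 : 0 < Nat.card (commutator G) := Nat.card_pos
  have p3 : 0 < Nat.card G := Nat.card_pos
  generalize Nat.card G = n, Nat.card (cA G) = a, Nat.card (commutator G) = q,
    Nat.card (stab μ) = τ, ∑ t, k t = κ, Z.ncard = z, D.ncard = d, (D \ {1}).ncard = d' at *
  have t1 : z * (τ * a * (m * m)) * m ≤ n * n * a := by
    calc _ = z * (m * m) * (τ * m) * a := by ring
      _ ≤ _ := by gcongr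
  have t2 : d' * (q * n) * m < n * n * a := by
    calc _ < d * (q * n) * m := by gcongr
      _ = d * q * m * n := by ring
      _ ≤ τ * a * m * n := by gcongr
      _ = τ * m * n * a := by ring
      _ ≤ _ := by gcongr
  have t3 : κ * m ^ 3 * a < 2 * n ^ 2 * a := by nlinarith [Nat.mul_le_mul_right m s7]
  have t4 := Nat.lt_of_mul_lt_mul_right t3
  refine Nat.lt_of_mul_lt_mul_right (a := n ^ 2) ?_
  calc _ ≤ m ^ 3 * (M ^ 2 * κ) := by gcongr
    _ = M ^ 2 * (κ * m ^ 3) := by ring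
    _ < M ^ 2 * (2 * n ^ 2) := by gcongr
    _ = _ := by ring

end St

end Pool.Agent.Lib.MP_6441f0_al.ND
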