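import Pool.Agent.Lib.MP_6441f0_al.ND.CaseII

namespace Pool.Agent.Lib.MP_6441f0_al.ND

open scoped commutatorElement

lemma core {G : Type} [Group G] [Finite G] [Group.IsNilpotent G] {m M : ℕ} (hG : Hyp G m M)
    (hM : 1 ≤ M) {μ : G → ℂˣ} (h : St μ) (hA : ¬ commutator G ≤ cA G) : m ^ 3 < 2 * M ^ 2 := by
  obtain ⟨n, hn⟩ := Subgroup.nilpotent_iff_lowerCentralSeries.1 ‹_›
  have an := (⊤ : Subgroup G).lowerCentralSeries_antitone
  have st : ∀ k x, x ∈ (⊤ : Subgroup G).lowerCentralSeries k → ∀ v : G,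
      ⁅v, x⁆ ∈ (⊤ : Subgroup G).lowerCentralSeries (k + 1) := fun k x hx v => by
    rw [← commutatorElement_inv]
    exact inv_mem (Subgroup.commutator_mem_commutator hx (Subgroup.mem_top v))
  obtain ⟨j, h1, h2⟩ := Nat.exists_not_and_succ_of_not_zero_of_exists
    (p := fun j => (⊤ : Subgroup G).lowerCentralSeries (j + 1) ≤ cA G) hA
    ⟨n, (an n.le_succ).trans (hn.le.trans bot_le)⟩
  rcases j with _ | j
  · obtain ⟨T, -, ⟨ν, hν, rfl⟩, hT⟩ := exists_maximal_ge_of_wellFoundedGT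
      (fun T : Subgroup G => ∃ ν, St ν ∧ stab ν = T) _ ⟨μ, h, rfl⟩
    obtain ⟨u, hu, hu'⟩ := SetLike.not_le_iff_exists.1 hA
    exact hν.caseII (fun w hw v => h2 (st 1 w hw v)) hG hM (fun κ hκ => hT ⟨κ, hκ, rfl⟩) hu hu'
  · rw [Subgroup.lowerCentralSeries_succ, Subgroup.commutator_le] at h1
    push Not at h1
    obtain ⟨x, hx, v, -, hv⟩ := h1
    have := h.caseI hG hM (an (show 1 ≤ j + 1 by omega) hx)
      (fun v s => h2 (st _ _ (st _ _ hx v) s)) (v := v) fun e => hv (by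
        rw [← commutatorElement_inv]; exact inv_mem e)
    rcases Nat.eq_zero_or_pos m with rfl | hm
    · positivity
    have : m ^ 3 ≤ (m * m) ^ 2 := by
      rw [← sq, ← pow_mul]; exact Nat.pow_le_pow_right hm (by omega)
    nlinarith [Nat.pow_le_pow_left ‹m * m ≤ M› 2]

lemma Hyp.map {G H : Type} [Group G] [Group H] {m M : ℕ} (hG : Hyp G m M) {f : G →* H}
    (hf : Function.Surjective f) : Hyp H m M := by
  rintro n ⟨V, _, _, _, ρ, h1, h2, h3⟩
  refine hG n ⟨V, _, _, inferInstance, ρ.comp f, h1, fun W hW => h2 W fun g v hv => ?_, h3⟩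
  obtain ⟨g, rfl⟩ := hf g
  exact hW g v hv

theorem metab {p m M : ℕ} (hp : p.Prime) (hM : 1 ≤ M) (hm : 2 * M ^ 2 ≤ m ^ 3) (n : ℕ) :
    ∀ (G : Type) [Group G] [Finite G], Nat.card G = n → IsPGroup p G → Hyp G m M →
      derivedSeries G 2 = ⊥ := by
  induction n using Nat.strong_induction_on with | _ n ih => ?_
  intro G _ _ hn hP hG
  classical
  have := Fact.mk hp
  rcases subsingleton_or_nontrivial G with _ | _
  · exact Subsingleton.elim _ _
  have := hP.center_nontrivial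
  obtain ⟨k, hk, e⟩ := (hP.to_subgroup (Subgroup.center G)).nontrivial_iff_card.1 this
  obtain ⟨⟨z, hz⟩, ho⟩ := exists_prime_orderOf_dvd_card' (G := Subgroup.center G) p
    (e ▸ dvd_pow_self p hk.ne')
  rw [← Subgroup.orderOf_coe] at ho
  have hZ : Subgroup.zpowers z ≤ Subgroup.center G := Subgroup.zpowers_le.2 hz
  have hN : (Subgroup.zpowers z).Normal := ⟨fun x hx g => by
    rwa [Subgroup.mem_center_iff.1 (hZ hx) g, mul_inv_cancel_right]⟩
  have hc : Nat.card (Subgroup.zpowers z) = p := by rw [Nat.card_zpowers, ho]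
  have sj := QuotientGroup.mk'_surjective (Subgroup.zpowers z)
  have h2 := ih _ (by
    rw [← hn, Subgroup.card_eq_card_quotient_mul_card_subgroup (Subgroup.zpowers z), hc]
    exact (Nat.lt_mul_iff_one_lt_right Nat.card_pos).2 hp.one_lt) _ rfl (hP.to_quotient _)
    (hG.map sj)
  rw [← map_derivedSeries_eq sj, Subgroup.map_eq_bot_iff, QuotientGroup.ker_mk'] at h2
  have h3 : ∀ x ∈ commutator G, ∀ y ∈ commutator G, ⁅x, y⁆ ∈ Subgroup.zpowers z :=
    fun x hx y hy => h2 (Subgroup.commutator_mem_commutator hx hy)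
  by_contra hne
  have hA : ¬ commutator G ≤ cA G := fun e => hne (by
    rw [eq_bot_iff]
    exact Subgroup.commutator_le.2 fun x hx y hy => cA1 hx (e hy))
  have : Fact (Nat.card (Subgroup.zpowers z)).Prime := ⟨hc ▸ hp⟩
  have top : ∀ K : Subgroup G, ∀ y ∈ Subgroup.zpowers z, y ∈ K → y ≠ 1 → Subgroup.zpowers z ≤ K :=
    fun K y hy hK h1 => Subgroup.subgroupOf_eq_top.1
      (((K.subgroupOf (Subgroup.zpowers z)).eq_bot_or_eq_top_of_prime_card).resolve_left fun e =>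
        h1 (congrArg Subtype.val ((Subgroup.eq_bot_iff_forall _).1 e ⟨y, hy⟩ hK)))
  obtain ⟨x, hx, hx'⟩ := SetLike.not_le_iff_exists.1 hA
  obtain ⟨y, hy, hy'⟩ : ∃ y ∈ commutator G, ⁅y, x⁆ ≠ 1 := by
    by_contra! e
    exact hx' ⟨hx, fun y hy => commutatorElement_eq_one_iff_mul_comm.1 (e y hy)⟩
  have zA : Subgroup.zpowers z ≤ cA G := le_inf (top _ _ (h3 y hy x hx) (cQ y x) hy')
    (hZ.trans (Subgroup.center_le_centralizer _))
  let : CommGroup (cA G) := { mul_comm := fun a b => Subtype.ext (b.2.2 a a.2.1) }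
  obtain ⟨φ, hφ⟩ := CommGroup.exists_apply_ne_one_of_hasEnoughRootsOfUnity (cA G) ℂ
    (a := ⟨_, zA (h3 y hy x hx)⟩) fun e => hy' (congrArg Subtype.val e)
  have mu : MulOn (cA G) fun g => if h : g ∈ cA G then φ ⟨g, h⟩ else 1 := fun a ha b hb => by
    simp only [ha, hb, (cA G).mul_mem ha hb, dif_pos, ← map_mul]
    rfl
  have := hP.isNilpotent
  refine (core hG hM ⟨mu, fun a ha b hb g => by
    rw [Subgroup.mem_center_iff.1 (hZ (h3 a ha b hb)) g, mul_inv_cancel_right],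
    fun a ha b hb e => ?_⟩ hA).not_ge hm
  by_contra e1
  have := (top (kerOn (cA G) (fun _ : Unit => _) fun _ => mu) _ (h3 a ha b hb)
    ⟨zA (h3 a ha b hb), fun _ => e⟩ e1 (h3 y hy x hx)).2 ()
  exact hφ (by simpa only [zA (h3 y hy x hx), dif_pos] using this)

end Pool.Agent.Lib.MP_6441f0_al.ND
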