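import Pool.Agent.Lib.MP_6441f0_al.ND.Rep

namespace Pool.Agent.Lib.MP_6441f0_al.ND

open scoped commutatorElement

lemma pair0 {M N : Type} [Group M] [Group N] [Finite M] [Finite N] (β : M → N → ℂˣ)
    (h1 : ∀ m m' n, β (m * m') n = β m n * β m' n)
    (h2 : ∀ m n n', β m (n * n') = β m n * β m n') :
    Nat.card {m // ∀ n, β m n = 1} * Nat.card N = Nat.card M * Nat.card {n // ∀ m, β m n = 1} := by
  classical
  have := Fintype.ofFinite M
  have := Fintype.ofFinite N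
  have key : ∀ {X : Type} [Group X] [Fintype X] (f : X → ℂˣ), (∀ x y, f (x * y) = f x * f y) →
      ∑ x, (f x : ℂ) = if ∀ x, f x = 1 then (Fintype.card X : ℂ) else 0 := by
    intro X _ _ f hf
    split_ifs with h
    · simp [h]
    · exact sum_hom_units_eq_zero ((Units.coeHom ℂ).comp (MonoidHom.mk' f hf)) fun e =>
        h fun x => Units.ext (DFunLike.congr_fun e x)
  have e : ∑ m, ∑ n, (β m n : ℂ) = ∑ n, ∑ m, (β m n : ℂ) := Finset.sum_comm
  rw [Finset.sum_congr rfl fun m _ => key (β m) (h2 m),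
    Finset.sum_congr rfl fun n _ => key (β · n) fun x y => h1 x y n,
    ← Finset.sum_filter, ← Finset.sum_filter] at e
  simp only [Finset.sum_const, nsmul_eq_mul] at e
  simp only [Nat.card_eq_fintype_card, Fintype.card_subtype]
  rw [mul_comm (Fintype.card M)]
  exact_mod_cast e

variable {G : Type} [Group G]

lemma card_sub (S : Subgroup G) (p : G → Prop) :
    Nat.card {m : S // p m} = {m | m ∈ S ∧ p m}.ncard :=
  Nat.card_congr (Equiv.subtypeSubtypeEquivSubtypeInter (· ∈ S) p)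

lemma pair [Finite G] {S T : Subgroup G} {β : G → G → ℂˣ} (h1 : ∀ n ∈ T, MulOn S (β · n))
    (h2 : ∀ m ∈ S, MulOn T (β m)) :
    {m | m ∈ S ∧ ∀ n ∈ T, β m n = 1}.ncard * Nat.card T =
      Nat.card S * {n | n ∈ T ∧ ∀ m ∈ S, β m n = 1}.ncard := by
  have := pair0 (fun (m : S) (n : T) => β m n) (fun a b n => h1 n n.2 a a.2 b b.2)
    fun m a b => h2 m m.2 a a.2 b b.2
  rw [← card_sub, ← card_sub]
  simpa only [Subtype.forall] using this

lemma MulOn.one {H : Subgroup G} {f : G → ℂˣ} (h : MulOn H f) : f 1 = 1 := by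
  simpa using h 1 H.one_mem 1 H.one_mem

lemma MulOn.inv {H : Subgroup G} {f : G → ℂˣ} (h : MulOn H f) {x : G} (hx : x ∈ H) :
    f x⁻¹ = (f x)⁻¹ := by
  rw [eq_inv_iff_mul_eq_one, ← h _ (H.inv_mem hx) _ hx, inv_mul_cancel, h.one]

lemma MulOn.mono {H K : Subgroup G} {f : G → ℂˣ} (h : MulOn H f) (e : K ≤ H) : MulOn K f :=
  fun x hx y hy => h x (e hx) y (e hy)

/-- common kernel of a family of characters of `S` -/
def kerOn (S : Subgroup G) {ι : Type} (f : ι → G → ℂˣ) (hf : ∀ i, MulOn S (f i)) : Subgroup G where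
  carrier := {x | x ∈ S ∧ ∀ i, f i x = 1}
  mul_mem' := fun ha hb => ⟨S.mul_mem ha.1 hb.1, fun i => by
    rw [hf i _ ha.1 _ hb.1, ha.2, hb.2, one_mul]⟩
  one_mem' := ⟨S.one_mem, fun i => (hf i).one⟩
  inv_mem' := fun ha => ⟨S.inv_mem ha.1, fun i => by rw [(hf i).inv ha.1, ha.2, inv_one]⟩

lemma lag [Finite G] {S : Subgroup G} {β : G → G → ℂˣ} (h1 : ∀ n ∈ S, MulOn S (β · n))
    (h2 : ∀ m ∈ S, MulOn S (β m)) (h0 : ∀ s ∈ S, β s s = 1) {X : Set G} (hX : X ⊆ S)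
    (hI : ∀ x ∈ X, ∀ y ∈ X, β x y = 1) :
    ∃ L ≤ S, X ⊆ L ∧ (∀ x ∈ L, ∀ y ∈ L, β x y = 1) ∧ (∀ y ∈ S, (∀ l ∈ L, β l y = 1) → y ∈ L) ∧
      {m | m ∈ S ∧ ∀ n ∈ S, β m n = 1}.ncard * Nat.card S = Nat.card L * Nat.card L := by
  have sy : ∀ x ∈ S, ∀ y ∈ S, β x y = 1 → β y x = 1 := fun x hx y hy e => by
    have : β x (x * y) * β y (x * y) = 1 :=
      (h1 _ (S.mul_mem hx hy) x hx y hy).symm.trans (h0 _ (S.mul_mem hx hy))
    rw [h2 x hx x hx y hy, h2 y hy x hx y hy, h0 x hx, h0 y hy,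
      e] at this
    simpa using this
  have cl : ∀ X : Set G, X ⊆ S → (∀ x ∈ X, ∀ y ∈ X, β x y = 1) → Subgroup.closure X ≤ S ∧
      ∀ x ∈ Subgroup.closure X, ∀ y ∈ Subgroup.closure X, β x y = 1 := fun X hX hI =>
    ⟨(Subgroup.closure_le S).2 hX, fun x hx y hy => by
      have a : Subgroup.closure X ≤ kerOn S (fun y : X => (β · y)) fun y => h1 y (hX y.2) :=
        (Subgroup.closure_le _).2 fun x hx => ⟨hX hx, fun y => hI x hx y y.2⟩
      have b : Subgroup.closure X ≤ kerOn S (fun _ : Unit => β x) fun _ => h2 x (a hx).1 :=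
        (Subgroup.closure_le _).2 fun y hy => ⟨hX hy, fun _ => (a hx).2 ⟨y, hy⟩⟩
      exact (b hy).2 ()⟩
  obtain ⟨L, hL, ⟨L1, L2⟩, L3⟩ := exists_maximal_ge_of_wellFoundedGT
    (fun L : Subgroup G => L ≤ S ∧ ∀ x ∈ L, ∀ y ∈ L, β x y = 1) _ (cl X hX hI)
  have L4 : ∀ y ∈ S, (∀ l ∈ L, β l y = 1) → y ∈ L := fun y hy h =>
    L3 (cl (insert y L) (Set.insert_subset hy L1) (by
      rintro a (rfl | ha) b (rfl | hb)
      exacts [h0 _ hy, sy b (L1 hb) a hy (h b hb), h a ha, L2 a ha b hb]))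
      (fun l hl => Subgroup.subset_closure (Or.inr hl)) (Subgroup.subset_closure (Or.inl rfl))
  refine ⟨L, L1, fun x hx => hL (Subgroup.subset_closure hx), L2, L4, ?_⟩
  have := pair (S := L) (T := S) (fun n hn => (h1 n hn).mono L1) fun m hm => h2 m (L1 hm)
  convert this using 2
  · congr 1
    ext m
    exact ⟨fun h => ⟨L4 m h.1 fun l hl => sy m h.1 l (L1 hl) (h.2 l (L1 hl)), h.2⟩,
      fun h => ⟨L1 h.1, h.2⟩⟩
  · change (L : Set G).ncard = _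
    congr 1
    ext y
    exact ⟨fun h => ⟨L1 h, fun l hl => L2 l hl y h⟩, fun h => L4 y h.1 h.2⟩

/-- the commutator form of an invariant character is bimultiplicative -/
lemma bim {C S : Subgroup G} {χ : G → ℂˣ} (hm : MulOn C χ) (hc : ∀ s ∈ S, ∀ t ∈ S, ⁅s, t⁆ ∈ C)
    (hi : ∀ s ∈ S, ∀ x ∈ C, s * x * s⁻¹ ∈ C ∧ χ (s * x * s⁻¹) = χ x) :
    (∀ n ∈ S, MulOn S fun s => χ ⁅s, n⁆) ∧ ∀ m ∈ S, MulOn S fun t => χ ⁅m, t⁆ := by
  refine ⟨fun n hn a ha b hb => ?_, fun m hm' a ha b hb => ?_⟩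
  · have e : ⁅a * b, n⁆ = a * ⁅b, n⁆ * a⁻¹ * ⁅a, n⁆ := by simp only [commutatorElement_def]; group
    obtain ⟨e1, e2⟩ := hi a ha _ (hc b hb n hn)
    simp only [e, hm _ e1 _ (hc a ha n hn), e2, mul_comm]
  · have e : ⁅m, a * b⁆ = ⁅m, a⁆ * (a * ⁅m, b⁆ * a⁻¹) := by simp only [commutatorElement_def]; group
    obtain ⟨e1, e2⟩ := hi a ha _ (hc m hm' b hb)
    simp only [e, hm _ (hc m hm' a ha) _ e1, e2]

end Pool.Agent.Lib.MP_6441f0_al.ND
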