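import Pool.Agent.Lib.MP_6441f0_al.Mono

namespace Pool.Agent.Lib.MP_6441f0_al.ND

open Module
open scoped commutatorElement

variable {G : Type} [Group G] [Finite G]

/-- every irreducible degree is `1` or lies in `[m, M]` -/
def Hyp (G : Type) [Group G] (m M : ℕ) : Prop := ∀ n ∈ dims G, n = 1 ∨ (m ≤ n ∧ n ≤ M)

/-- multiplicative on `H` -/
def MulOn {R : Type} [Monoid R] (H : Subgroup G) (f : G → R) : Prop :=
  ∀ x ∈ H, ∀ y ∈ H, f (x * y) = f x * f y

/-- the induced module -/
def Ind (H : Subgroup G) (lam : G → ℂ) : Submodule ℂ (G → ℂ) where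
  carrier := {F | ∀ h ∈ H, ∀ x, F (h * x) = lam h * F x}
  add_mem' := fun ha hb h hh x => by simp [ha h hh, hb h hh, mul_add]
  zero_mem' := fun h hh x => by simp
  smul_mem' := fun c F ha h hh x => by simp [ha h hh, mul_left_comm]

omit [Finite G] in
lemma reg_apply (g x : G) (F : G → ℂ) : regular G g F x = F (x * g) := rfl

omit [Finite G] in
lemma ind_inv (H : Subgroup G) (lam : G → ℂ) (g : G) : ∀ F ∈ Ind H lam, regular G g F ∈ Ind H lam :=
  fun F hF h hh x => by rw [reg_apply, reg_apply, mul_assoc, hF h hh]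

lemma ind_rank (H : Subgroup G) (lam : G → ℂ) : finrank ℂ (Ind H lam) ≤ H.index := by
  have := Fintype.ofFinite (G ⧸ H)
  let L : Ind H lam →ₗ[ℂ] (G ⧸ H → ℂ) :=
    (LinearMap.funLeft ℂ ℂ fun c : G ⧸ H => c.out⁻¹).comp (Ind H lam).subtype
  have hL : Function.Injective L := by
    rw [injective_iff_map_eq_zero]
    intro F hF
    ext x
    obtain ⟨h, e⟩ := QuotientGroup.mk_out_eq_mul H x⁻¹
    have h1 : F.1 (QuotientGroup.mk (s := H) x⁻¹).out⁻¹ = 0 := congrFun hF _
    have h2 := F.2 h h.2 (QuotientGroup.mk (s := H) x⁻¹).out⁻¹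
    rw [h1, e] at h2
    simpa using h2
  simpa [Subgroup.index, Nat.card_eq_fintype_card] using L.finrank_le_finrank_of_injective hL

open Classical in
omit [Finite G] in
lemma base_mem {H : Subgroup G} {lam : G → ℂ} (hl : MulOn H lam) :
    (fun x => if x ∈ H then lam x else 0) ∈ Ind H lam := fun h hh x => by
  by_cases hx : x ∈ H
  · simp [hx, H.mul_mem hh hx, hl h hh x hx]
  · simp [hx, (H.mul_mem_cancel_left hh).not.2 hx]

lemma low {m M : ℕ} (hG : Hyp G m M) {H : Subgroup G} (hi : H.index < m) {lam : G → ℂ}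
    (hl : MulOn H lam) (h1 : lam 1 = 1) : ∀ y ∈ commutator G, y ∈ H ∧ lam y = 1 := by
  classical
  have := Fintype.ofFinite (commutator G)
  let S : (G → ℂ) →ₗ[ℂ] (G → ℂ) := ∑ y : commutator G, regular G y
  have hS : ∀ F x, S F x = ∑ y : commutator G, F (x * y) := fun F x => by
    simp [S, LinearMap.sum_apply, reg_apply]
  have hU : Ind H lam ⊓ LinearMap.ker S = ⊥ := by
    by_contra hU
    obtain ⟨W, σ, hW, hnt, hirr, hσ⟩ := exists_irr_sub (regular G) _ hU (fun g F hF =>
      ⟨ind_inv H lam g F hF.1, by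
        have e : ∀ x, S F x = 0 := fun x => congrFun hF.2 x
        ext x
        rw [Pi.zero_apply, ← e (x * g), hS, hS]
        exact Fintype.sum_equiv (MulAut.conjNormal (H := commutator G) g⁻¹).toEquiv _ _
          fun y => by simp [reg_apply, mul_assoc]⟩)
    have hd : finrank ℂ W = 1 := (hG _ ⟨W, _, _, inferInstance, σ, hnt, hirr, rfl⟩).resolve_right
      fun h => by
        have := (Submodule.finrank_mono (hW.trans inf_le_left)).trans (ind_rank H lam)
        omega
    obtain ⟨w, hw, hw2⟩ := finrank_eq_one_iff'.1 hd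
    have hc : ∀ y ∈ commutator G, σ y = 1 := by
      intro y hy
      have : commutator G ≤ σ.ker := by
        rw [commutator_def, Subgroup.commutator_le]
        intro a _ b _
        obtain ⟨ca, ha⟩ := hw2 (σ a w)
        obtain ⟨cb, hb⟩ := hw2 (σ b w)
        have : σ (a * b) = σ (b * a) := by
          ext1 v
          obtain ⟨c, rfl⟩ := hw2 v
          simp only [map_mul, Module.End.mul_apply, map_smul, ← ha, ← hb, smul_comm ca cb]
        rw [MonoidHom.mem_ker, commutatorElement_def, mul_assoc (a * b), map_mul, this, ← map_mul]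
        simp
      exact this hy
    have e : S w = 0 := (hW w.2).2
    apply hw
    ext x
    have e2 := congrFun e x
    rw [hS, Finset.sum_congr rfl (g := fun _ => w.1 x) fun y _ => by
      rw [← reg_apply (y : G) x w.1, ← hσ, hc y y.2]; rfl] at e2
    simpa using e2
  intro y hy
  have hF := base_mem hl
  have : regular G y _ - _ ∈ Ind H lam ⊓ LinearMap.ker S :=
    ⟨sub_mem (ind_inv H lam y _ hF) hF, by
      ext x
      rw [map_sub, Pi.sub_apply, hS, hS, Pi.zero_apply, sub_eq_zero]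
      exact Fintype.sum_equiv (Equiv.mulRight ⟨y, hy⟩) _ _ fun z => by simp [reg_apply, mul_assoc]⟩
  rw [hU] at this
  have e := congrFun ((Submodule.mem_bot ℂ).1 this) 1
  by_cases h : y ∈ H
  · exact ⟨h, by simpa [reg_apply, h, h1, sub_eq_zero] using e⟩
  · simp [reg_apply, h, h1] at e

lemma mackey {m M : ℕ} (hG : Hyp G m M) (hM : 1 ≤ M) {H : Subgroup G} {lam : G → ℂ}
    (hl : MulOn H lam) (h1 : lam 1 = 1) {ι : Type} [Finite ι] (g : ι → G)
    (hg : ∀ i j, i ≠ j → ∃ h ∈ H, ∃ k ∈ H, h * ((g j)⁻¹ * g i) = (g j)⁻¹ * g i * k ∧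
      lam h ≠ lam k) : Nat.card ι ≤ M := by
  classical
  have := Fintype.ofFinite H
  have := Fintype.ofFinite ι
  obtain ⟨W, σ, hW, hnt, hirr, hσ⟩ := exists_irr_sub (regular G) (Ind H lam) (fun h => by
    have := base_mem hl
    rw [h] at this
    have := congrFun ((Submodule.mem_bot ℂ).1 this) 1
    simp [h1] at this) (ind_inv H lam)
  obtain ⟨w, hw⟩ := exists_ne (0 : W)
  obtain ⟨x, hx⟩ : ∃ x, w.1 x ≠ 0 := by
    by_contra! h
    exact hw (Subtype.ext (funext h))
  have hinv : ∀ h ∈ H, lam h⁻¹ * lam h = 1 := fun h hh => by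
    rw [← hl _ (H.inv_mem hh) _ hh, inv_mul_cancel, h1]
  let v : W := ∑ h : H, lam (h : G)⁻¹ • σ (h * x) w
  have hv : ∀ y, v.1 y = ∑ h : H, lam (h : G)⁻¹ * w.1 (y * h * x) := fun y => by
    simp [v, hσ, reg_apply, mul_assoc]
  have v1 : v.1 1 ≠ 0 := by
    rw [hv, Finset.sum_congr rfl (g := fun _ => w.1 x) fun h _ => by
      rw [one_mul, hW w.2 h h.2, ← mul_assoc, hinv h h.2, one_mul]]
    simpa using hx
  have v2 : ∀ y, ∀ k ∈ H, v.1 (y * k) = lam k * v.1 y := fun y k hk => by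
    rw [hv, hv, Finset.mul_sum]
    refine Fintype.sum_equiv (Equiv.mulLeft ⟨k, hk⟩) _ _ fun h => ?_
    simp only [Equiv.coe_mulLeft, Subgroup.coe_mul, mul_inv_rev, mul_assoc]
    rw [hl _ (H.inv_mem h.2) _ (H.inv_mem hk)]
    linear_combination (-lam (h : G)⁻¹ * w.1 (y * (k * (h * x)))) * hinv k hk
  have hli : LinearIndependent ℂ fun i => σ (g i) v := by
    rw [Fintype.linearIndependent_iff]
    intro c hc j
    have e := congrFun (congrArg Subtype.val hc) (g j)⁻¹
    simp only [AddSubmonoidClass.coe_finsetSum, SetLike.val_smul, hσ, Finset.sum_apply,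
      Pi.smul_apply, reg_apply, smul_eq_mul] at e
    rw [Finset.sum_eq_single j (fun i _ hij => by
      obtain ⟨h, hh, k, hk, e1, e2⟩ := hg i j hij
      have := hW v.2 h hh ((g j)⁻¹ * g i)
      rw [e1, v2 _ k hk] at this
      rw [(mul_eq_mul_right_iff.1 this).resolve_left e2.symm, mul_zero]) (by simp)] at e
    simpa [v1] using e
  have := hli.fintype_card_le_finrank
  have := hG _ ⟨W, _, _, inferInstance, σ, hnt, hirr, rfl⟩
  rw [Nat.card_eq_fintype_card]
  omega

lemma ext_char {A L : Subgroup G} {μ : G → ℂˣ} (hm : MulOn A μ)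
    (hi : ∀ l ∈ L, ∀ x ∈ A, l * x * l⁻¹ ∈ A ∧ μ (l * x * l⁻¹) = μ x)
    (hc : ∀ l ∈ L, ∀ k ∈ L, ⁅l, k⁆ ∈ A ∧ μ ⁅l, k⁆ = 1) :
    ∃ lam : G → ℂ, MulOn L lam ∧ lam 1 = 1 ∧ ∀ x ∈ A, x ∈ L → lam x = μ x := by
  classical
  let U : Submodule ℂ (G → ℂ) :=
    { carrier := {F | ∀ a ∈ A, ∀ x, F (x * a) = μ a * F x}
      add_mem' := fun ha hb h hh x => by simp [ha h hh, hb h hh, mul_add]
      zero_mem' := fun h hh x => by simp
      smul_mem' := fun c F ha h hh x => by simp [ha h hh, mul_left_comm] }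
  obtain ⟨F, hF, F0, χ, hχ⟩ := exists_common_eigenvector (fun l : L => regular G l) U (fun h => by
      have : (fun x => if x ∈ A then (μ x : ℂ) else 0) ∈ U := fun a ha x => by
        by_cases hx : x ∈ A
        · simp [hx, A.mul_mem hx ha, hm x hx a ha, mul_comm]
        · simp [hx, (A.mul_mem_cancel_right ha).not.2 hx]
      rw [h] at this
      have := congrFun ((Submodule.mem_bot ℂ).1 this) 1
      simp at this)
    (fun l F hF a ha x => by
      obtain ⟨e1, e2⟩ := hi _ (L.inv_mem l.2) a ha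
      rw [reg_apply, reg_apply, ← e2, ← hF _ e1]
      simp [mul_assoc])
    (fun l k F hF => by
      ext x
      obtain ⟨e1, e2⟩ := hc _ (L.inv_mem l.2) _ (L.inv_mem k.2)
      have := hF _ e1 (x * k * l)
      rw [e2] at this
      simpa [reg_apply, commutatorElement_def, mul_assoc] using this)
  obtain ⟨x, hx⟩ : ∃ x, F x ≠ 0 := by
    by_contra! h
    exact F0 (funext h)
  have e : ∀ l (hl : l ∈ L) y, F (y * l) = χ ⟨l, hl⟩ * F y := fun l hl y => congrFun (hχ ⟨l, hl⟩) y
  refine ⟨fun y => F (x * y) / F x, fun a ha b hb => ?_, by simp [hx], fun a ha _ => ?_⟩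
  · simp only [← mul_assoc, e b hb, e a ha]
    field_simp
  · simp [hF a ha, hx]

end Pool.Agent.Lib.MP_6441f0_al.ND
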